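import Pool.Agent.helper99.ZP.Spec

set_option autoImplicit false
set_option linter.unusedVariables false

namespace Pool.Agent.ZP

open Finset
open Pool.Agent.helper32.Cant
open Pool.Agent.GA (nrm chi ch St sg flp Psi rc ph pot rpot far nc gf ncs gfs good mj om pick pat et kap mult)
open Pool.Agent.ZR
open scoped ENNReal

noncomputable section

/-- the cost of a finite cover bounds the content -/
theorem DJ1_cont (C₀ : ℝ) (E : Set (ℝ × ℝ)) (A : Finset (ℕ × ℕ × ℕ))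
    (hA : ∀ s ∈ E, ∃ c ∈ A, ⌊(3 : ℝ) ^ c.1 * s.1⌋ = (c.2.1 : ℤ) ∧ ⌊(3 : ℝ) ^ c.1 * s.2⌋ = (c.2.2 : ℤ)) :
    cont2 (psF C₀) E ≤ ENNReal.ofReal (∑ s ∈ A, pst C₀ s.1) := by
  classical
  set f : ℕ × ℕ × ℕ → ℕ × ℤ × ℤ := fun c => (c.1, (c.2.1 : ℤ), (c.2.2 : ℤ)) with hf
  have hinj : Function.Injective f := by
    intro x y hxy
    simp only [hf, Prod.mk.injEq, Nat.cast_inj] at hxy
    exact Prod.ext hxy.1 (Prod.ext hxy.2.1 hxy.2.2)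
  have hcov : Cov2 ((A.image f : Finset (ℕ × ℤ × ℤ)) : Set (ℕ × ℤ × ℤ)) E := by
    intro s hs
    obtain ⟨c, hc, hc2, hc3⟩ := hA s hs
    exact ⟨f c, mem_coe.2 (mem_image_of_mem f hc), hc2, hc3⟩
  have h1 : cont2 (psF C₀) E ≤ cst2 (psF C₀) ((A.image f : Finset (ℕ × ℤ × ℤ)) : Set (ℕ × ℤ × ℤ)) := by
    unfold cont2
    exact iInf_le_of_le ((A.image f : Finset (ℕ × ℤ × ℤ)) : Set (ℕ × ℤ × ℤ)) (iInf_le_of_le hcov le_rfl)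
  refine h1.trans (le_of_eq ?_)
  have h2 : cst2 (psF C₀) ((A.image f : Finset (ℕ × ℤ × ℤ)) : Set (ℕ × ℤ × ℤ)) = ∑ c ∈ A.image f, psF C₀ c.1 := by
    unfold cst2
    exact Finset.tsum_subtype' (A.image f) (fun c : ℕ × ℤ × ℤ => psF C₀ c.1)
  have h3 : ∀ s ∈ A, 0 ≤ pst C₀ s.1 := fun s _ => div_nonneg (Real.exp_pos _).le (by positivity)
  rw [h2, sum_image (fun x _ y _ h => hinj h), ENNReal.ofReal_sum_of_nonneg h3]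
  rfl

theorem DJ1_ind_nonneg (p : Prop) : 0 ≤ ind p := by
  unfold ind
  split_ifs <;> norm_num

/-- the three cells of a window -/
theorem DJ1_cell (q L : ℕ) (hL : 0 < L) (u : ℤ) (h : |(q : ℤ) - u| ≤ L) :
    ((q / L : ℕ) : ℤ) ∈ Icc (u / L - 1) (u / L + 1) := by
  have hLZ : (0 : ℤ) < L := by exact_mod_cast hL
  obtain ⟨h2, h3⟩ := abs_le.1 h
  have h4 : ((q / L : ℕ) : ℤ) = (q : ℤ) / L := by push_cast; rfl
  have h5 : u / L - 1 ≤ (q : ℤ) / L := by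
    have h6 : (u + (-1) * L) / L = u / L + (-1) := Int.add_mul_ediv_right _ _ hLZ.ne'
    have h7 : (u + (-1) * L) / L ≤ (q : ℤ) / L := Int.ediv_le_ediv hLZ (by linarith)
    rw [h6] at h7
    linarith
  have h8 : (q : ℤ) / L ≤ u / L + 1 := by
    have h6 : (u + 1 * L) / L = u / L + 1 := Int.add_mul_ediv_right _ _ hLZ.ne'
    have h7 : (q : ℤ) / L ≤ (u + 1 * L) / L := Int.ediv_le_ediv hLZ (by linarith)
    rw [h6] at h7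
    linarith
  rw [h4, mem_Icc]
  exact ⟨h5, h8⟩

/-- nine squares cover a window -/
theorem DJ1_win (a : ℕ × ℕ → ℝ) (ha : ∀ q, 0 ≤ a q) (Q : Finset (ℕ × ℕ)) (L : ℕ) (hL : 0 < L) (ψ : ℝ) (hψ : 0 ≤ ψ)
    (h : ∀ c d, ∑ q ∈ Q with (q.1 / L = c ∧ q.2 / L = d), a q ≤ ψ) (u v : ℤ) :
    ∑ q ∈ Q, a q * ind (|(q.1 : ℤ) - u| ≤ L ∧ |(q.2 : ℤ) - v| ≤ L) ≤ 9 * ψ := by
  classical
  set W : Finset (ℕ × ℕ) := Q.filter (fun q => |(q.1 : ℤ) - u| ≤ L ∧ |(q.2 : ℤ) - v| ≤ L) with hW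
  have h1 : ∑ q ∈ Q, a q * ind (|(q.1 : ℤ) - u| ≤ L ∧ |(q.2 : ℤ) - v| ≤ L) = ∑ q ∈ W, a q := by
    rw [hW, sum_filter]
    refine sum_congr rfl fun q _ => ?_
    by_cases hq : |(q.1 : ℤ) - u| ≤ L ∧ |(q.2 : ℤ) - v| ≤ L
    · rw [if_pos hq]
      unfold ind
      rw [if_pos hq, mul_one]
    · rw [if_neg hq]
      unfold ind
      rw [if_neg hq, mul_zero]
  set t : Finset (ℤ × ℤ) := Icc (u / L - 1) (u / L + 1) ×ˢ Icc (v / L - 1) (v / L + 1) with ht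
  set g : ℕ × ℕ → ℤ × ℤ := fun q => (((q.1 / L : ℕ) : ℤ), ((q.2 / L : ℕ) : ℤ)) with hg
  have hmap : ∀ q ∈ W, g q ∈ t := by
    intro q hq
    obtain ⟨-, h2, h3⟩ := mem_filter.1 hq
    exact mem_product.2 ⟨DJ1_cell q.1 L hL u h2, DJ1_cell q.2 L hL v h3⟩
  have hcard : t.card = 9 := by
    rw [ht, card_product, Int.card_Icc, Int.card_Icc]
    have e1 : (u / (L : ℤ) + 1 + 1 - (u / (L : ℤ) - 1)).toNat = 3 := by omega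
    have e2 : (v / (L : ℤ) + 1 + 1 - (v / (L : ℤ) - 1)).toNat = 3 := by omega
    rw [e1, e2]
  have hfib : ∀ y ∈ t, ∑ q ∈ W with g q = y, a q ≤ ψ := by
    rintro ⟨c, d⟩ -
    by_cases hcd : 0 ≤ c ∧ 0 ≤ d
    · obtain ⟨c', rfl⟩ := Int.eq_ofNat_of_zero_le hcd.1
      obtain ⟨d', rfl⟩ := Int.eq_ofNat_of_zero_le hcd.2
      refine (sum_le_sum_of_subset_of_nonneg ?_ fun q _ _ => ha q).trans (h c' d')
      intro q hq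
      obtain ⟨h2, h3⟩ := mem_filter.1 hq
      refine mem_filter.2 ⟨(mem_filter.1 h2).1, ?_⟩
      rw [hg, Prod.mk.injEq] at h3
      exact ⟨by exact_mod_cast h3.1, by exact_mod_cast h3.2⟩
    · have h2 : W.filter (fun q => g q = (c, d)) = ∅ := by
        refine filter_eq_empty_iff.2 fun q _ hq => hcd ?_
        rw [hg, Prod.mk.injEq] at hq
        refine ⟨?_, ?_⟩
        · rw [← hq.1]
          exact Int.natCast_nonneg _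
        · rw [← hq.2]
          exact Int.natCast_nonneg _
      rw [h2, sum_empty]
      exact hψ
  rw [h1, ← sum_fiberwise_of_maps_to hmap a]
  refine (sum_le_sum hfib).trans ?_
  rw [sum_const, hcard, nsmul_eq_mul]
  norm_num

/-- floors at two levels -/
theorem DJ1_floor (n i : ℕ) (hi : i ≤ n) (x : ℝ) (hx : 0 ≤ x) (q c : ℕ) (hq : ⌊(3 : ℝ) ^ n * x⌋₊ = q) (hc : q / 3 ^ (n - i) = c) :
    ⌊(3 : ℝ) ^ i * x⌋ = (c : ℤ) := by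
  have h4 : (3 : ℝ) ^ i * x = ((3 : ℝ) ^ n * x) / ((3 ^ (n - i) : ℕ) : ℝ) := by
    push_cast
    rw [eq_div_iff (by positivity)]
    have : (3 : ℝ) ^ n = 3 ^ i * 3 ^ (n - i) := by rw [← pow_add]; congr 1; omega
    rw [this]
    ring
  have h5 : ⌊(3 : ℝ) ^ i * x⌋₊ = c := by
    rw [h4, Nat.floor_div_natCast, hq]
    exact hc
  rw [← h5]
  exact (Int.natCast_floor_eq_floor (by positivity)).symm

theorem DJ1 (hFR2 : FR2_stmt) : DJ1_stmt := by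
  intro C₀ hC₀ U o lam δ s₀ hlam hs₀ hcont n
  classical
  have hN : (0 : ℝ) < 3 ^ n := by positivity
  set P : Set (ℝ × ℝ) := Ps U o lam δ with hP
  have hPb : ∀ p ∈ P, 0 ≤ p.1 ∧ p.1 < 1 ∧ 0 ≤ p.2 ∧ p.2 < 1 := fun p hp => ⟨hp.1, hp.2.1, hp.2.2.1, hp.2.2.2.1⟩
  set Q : Finset (ℕ × ℕ) := (range (3 ^ n) ×ˢ range (3 ^ n)).filter
    (fun q => ∃ p ∈ P, ⌊(3 : ℝ) ^ n * p.1⌋₊ = q.1 ∧ ⌊(3 : ℝ) ^ n * p.2⌋₊ = q.2) with hQ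
  have hpst : ∀ i, 0 < pst C₀ i := fun i => div_pos (Real.exp_pos _) (by positivity)
  obtain ⟨a, A, ha0, haE, hcell, hAn, hAc, hAs⟩ := hFR2 n (pst C₀) hpst Q (fun q hq => by
    obtain ⟨h1, h2⟩ := mem_product.1 (mem_filter.1 hq).1
    exact ⟨mem_range.1 h1, mem_range.1 h2⟩)
  -- the cells of `A` cover `P`
  have hcov : ∀ p ∈ P, ∃ c ∈ A, ⌊(3 : ℝ) ^ c.1 * p.1⌋ = (c.2.1 : ℤ) ∧ ⌊(3 : ℝ) ^ c.1 * p.2⌋ = (c.2.2 : ℤ) := by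
    intro p hp
    obtain ⟨h0, h1, h2, h3⟩ := hPb p hp
    have hlt : ∀ x : ℝ, 0 ≤ x → x < 1 → ⌊(3 : ℝ) ^ n * x⌋₊ < 3 ^ n := by
      intro x hx0 hx1
      rw [Nat.floor_lt (by positivity)]
      push_cast
      nlinarith
    obtain ⟨c, hc, hc2, hc3⟩ := hAc (⌊(3 : ℝ) ^ n * p.1⌋₊, ⌊(3 : ℝ) ^ n * p.2⌋₊) (mem_filter.2
      ⟨mem_product.2 ⟨mem_range.2 (hlt _ h0 h1), mem_range.2 (hlt _ h2 h3)⟩, p, hp, rfl, rfl⟩)
    exact ⟨c, hc, DJ1_floor n c.1 (hAn c hc) p.1 h0 _ _ rfl hc2, DJ1_floor n c.1 (hAn c hc) p.2 h2 _ _ rfl hc3⟩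
  have hσs : s₀ < ∑ q ∈ Q, a q := by
    have h1 := hcont.trans_le (DJ1_cont C₀ P A hcov)
    have h2 : s₀ < ∑ s ∈ A, pst C₀ s.1 := by
      by_contra hh
      exact absurd h1 (not_lt.2 (ENNReal.ofReal_le_ofReal (not_lt.1 hh)))
    linarith
  set F : Finset (ℕ × ℕ) := Q.filter (fun z => 0 < a z) with hF
  have hFm : ∀ z : F, z.1.1 < 3 ^ n ∧ z.1.2 < 3 ^ n ∧ 0 < a z.1 ∧
      ∃ p ∈ P, ⌊(3 : ℝ) ^ n * p.1⌋₊ = z.1.1 ∧ ⌊(3 : ℝ) ^ n * p.2⌋₊ = z.1.2 := by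
    intro z
    obtain ⟨h1, h2⟩ := mem_filter.1 z.2
    obtain ⟨h3, h4⟩ := mem_filter.1 h1
    obtain ⟨h5, h6⟩ := mem_product.1 h3
    exact ⟨mem_range.1 h5, mem_range.1 h6, h2, h4⟩
  let c : Fam n F :=
    { ctr := fun z => z.1.1
      R := fun z => 3 ^ n + z.1.2
      a := fun z => a z.1 * 3 ^ n
      hc := fun z => (hFm z).1
      lo := fun z => Nat.le_add_right _ _
      hi := fun z => by have := (hFm z).2.1; omega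
      pos := fun z => mul_pos (hFm z).2.2.1 hN }
  refine ⟨F, inferInstance, c, ?_, ?_, ?_⟩
  · -- total mass
    have h1 : Wt c = ∑ z ∈ F, a z * 3 ^ n := sum_coe_sort F (fun z => a z * 3 ^ n)
    have h2 : ∑ z ∈ F, a z * 3 ^ n = ∑ z ∈ Q, a z * 3 ^ n := by
      refine sum_subset (filter_subset _ _) fun z hz1 hz2 => ?_
      have h3 : a z = 0 := by
        by_contra hh
        exact hz2 (mem_filter.2 ⟨hz1, lt_of_le_of_ne (ha0 _) (Ne.symm hh)⟩)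
      rw [h3, zero_mul]
    rw [h1, h2, ← sum_mul]
    exact mul_le_mul_of_nonneg_right hσs.le hN.le
  · -- windows
    intro j hj x r
    set L : ℕ := 3 ^ (n - j) with hL
    have h1 : ∑ z, c.a z * ind (|(c.ctr z : ℤ) - x| ≤ 3 ^ (n - j) ∧ |(c.R z : ℤ) - r| ≤ 3 ^ (n - j)) =
        ∑ z ∈ F, a z * 3 ^ n * ind (|(z.1 : ℤ) - x| ≤ 3 ^ (n - j) ∧ |(((3 ^ n + z.2 : ℕ)) : ℤ) - r| ≤ 3 ^ (n - j)) :=
      sum_coe_sort F (fun z => a z * 3 ^ n * ind (|(z.1 : ℤ) - x| ≤ 3 ^ (n - j) ∧ |(((3 ^ n + z.2 : ℕ)) : ℤ) - r| ≤ 3 ^ (n - j)))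
    have h2 : ∑ z ∈ F, a z * 3 ^ n * ind (|(z.1 : ℤ) - x| ≤ 3 ^ (n - j) ∧ |(((3 ^ n + z.2 : ℕ)) : ℤ) - r| ≤ 3 ^ (n - j)) ≤
        ∑ z ∈ Q, a z * 3 ^ n * ind (|(z.1 : ℤ) - x| ≤ 3 ^ (n - j) ∧ |(((3 ^ n + z.2 : ℕ)) : ℤ) - r| ≤ 3 ^ (n - j)) :=
      sum_le_sum_of_subset_of_nonneg (filter_subset _ _) fun z _ _ =>
        mul_nonneg (mul_nonneg (ha0 _) hN.le) (DJ1_ind_nonneg _)
    have h3 : ∑ z ∈ Q, a z * 3 ^ n * ind (|(z.1 : ℤ) - x| ≤ 3 ^ (n - j) ∧ |(((3 ^ n + z.2 : ℕ)) : ℤ) - r| ≤ 3 ^ (n - j)) =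
        3 ^ n * ∑ z ∈ Q, a z * ind (|(z.1 : ℤ) - x| ≤ (L : ℤ) ∧ |(z.2 : ℤ) - ((r : ℤ) - 3 ^ n)| ≤ (L : ℤ)) := by
      rw [mul_sum]
      refine sum_congr rfl fun z _ => ?_
      have h5 : (|(z.1 : ℤ) - x| ≤ 3 ^ (n - j) ∧ |(((3 ^ n + z.2 : ℕ)) : ℤ) - r| ≤ 3 ^ (n - j)) ↔
          (|(z.1 : ℤ) - x| ≤ (L : ℤ) ∧ |(z.2 : ℤ) - ((r : ℤ) - 3 ^ n)| ≤ (L : ℤ)) := by
        have h6 : (((3 ^ n + z.2 : ℕ)) : ℤ) - r = (z.2 : ℤ) - ((r : ℤ) - 3 ^ n) := by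
          push_cast
          ring
        rw [h6, hL]
        push_cast
        tauto
      rw [propext h5]
      ring
    have h4 := DJ1_win a ha0 Q L (by positivity) (pst C₀ j) (hpst j).le (hcell j hj) (x : ℤ) ((r : ℤ) - 3 ^ n)
    rw [h1]
    refine h2.trans ?_
    rw [h3]
    refine (mul_le_mul_of_nonneg_left h4 hN.le).trans (le_of_eq ?_)
    unfold pst
    have h5 : (3 : ℝ) ^ n = 3 ^ j * 3 ^ (n - j) := by rw [← pow_add]; congr 1; omega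
    rw [h5]
    field_simp
  · intro z
    obtain ⟨-, -, -, p, hp, hp1, hp2⟩ := hFm z
    obtain ⟨h0, h1, h2, h3⟩ := hPb p hp
    have hfl : ∀ x : ℝ, 0 ≤ x → 0 ≤ x - (⌊(3 : ℝ) ^ n * x⌋₊ : ℝ) / 3 ^ n ∧ x - (⌊(3 : ℝ) ^ n * x⌋₊ : ℝ) / 3 ^ n ≤ 1 / 3 ^ n := by
      intro x hx
      have h5 : (⌊(3 : ℝ) ^ n * x⌋₊ : ℝ) ≤ (3 : ℝ) ^ n * x := Nat.floor_le (by positivity)
      have h6 : (3 : ℝ) ^ n * x < ⌊(3 : ℝ) ^ n * x⌋₊ + 1 := Nat.lt_floor_add_one _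
      have h7 : x - (⌊(3 : ℝ) ^ n * x⌋₊ : ℝ) / 3 ^ n = ((3 : ℝ) ^ n * x - ⌊(3 : ℝ) ^ n * x⌋₊) / 3 ^ n := by
        field_simp
      rw [h7]
      exact ⟨div_nonneg (by linarith) hN.le, div_le_div_of_nonneg_right (by linarith) hN.le⟩
    refine ⟨o + lam * p.1, p.2, hp.2.2, ?_, ?_⟩
    · obtain ⟨e1, e2⟩ := hfl p.1 h0
      have h4 : ((c.ctr z : ℕ) : ℝ) = (⌊(3 : ℝ) ^ n * p.1⌋₊ : ℝ) := by rw [hp1]
      have h5 : o + lam * p.1 - (o + lam * ((c.ctr z : ℕ) / 3 ^ n)) = lam * (p.1 - (⌊(3 : ℝ) ^ n * p.1⌋₊ : ℝ) / 3 ^ n) := by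
        rw [h4]
        ring
      rw [h5, abs_of_nonneg (mul_nonneg hlam.le e1)]
      calc lam * (p.1 - (⌊(3 : ℝ) ^ n * p.1⌋₊ : ℝ) / 3 ^ n) ≤ lam * (1 / 3 ^ n) := mul_le_mul_of_nonneg_left e2 hlam.le
        _ = lam / 3 ^ n := by ring
    · obtain ⟨e1, e2⟩ := hfl p.2 h2
      have h4 : ((c.R z : ℕ) : ℝ) = 3 ^ n + (⌊(3 : ℝ) ^ n * p.2⌋₊ : ℝ) := by
        rw [hp2]
        change (((3 ^ n + z.1.2 : ℕ)) : ℝ) = _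
        push_cast
        rfl
      have h7 : (1 + p.2) - (3 ^ n + (⌊(3 : ℝ) ^ n * p.2⌋₊ : ℝ)) / 3 ^ n = p.2 - (⌊(3 : ℝ) ^ n * p.2⌋₊ : ℝ) / 3 ^ n := by
        field_simp
        ring
      rw [h4, h7, abs_of_nonneg e1]
      exact e2

end

end Pool.Agent.ZP
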